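import Pool.Agent.P.MP_54474a_lc.Homeo

namespace Pool.Agent.Results.MP_54474a_lc.JumpInvariance

open Pool.Agent.P.MP_54474a_lc

/-- Every automorphism is induced by a homeomorphism of Cantor space which, on each nowhere dense
class, preserves the subclasses that are effectively closed relative to the halting problem, and
in particular the limit computable points. -/
theorem result (Φ : EPi ≃o EPi) : ∃ h : (ℕ → Bool) ≃ₜ (ℕ → Bool),
    (∀ Q : EPi, (Φ Q).1 = h '' Q.1) ∧
    ∀ P : EPi, interior P.1 = ∅ →
      (∀ F, F ⊆ P.1 → (IsPi01Jump F ↔ IsPi01Jump (h '' F))) ∧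
      ∀ x ∈ P.1, LimitComputable x ↔ LimitComputable (h x) := by
  obtain ⟨h, H⟩ := exists_homeo Φ
  refine ⟨h, H, fun P nd => ⟨fun F hF => jump_image_iff H P.2 nd hF, fun x hx => ?_⟩⟩
  rw [← isPi01Jump_singleton, ← isPi01Jump_singleton, ← Set.image_singleton]
  exact jump_image_iff H P.2 nd (Set.singleton_subset_iff.2 hx)

end Pool.Agent.Results.MP_54474a_lc.JumpInvariance
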