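import Pool.Agent.P.MP_54474a_lc.OR.Main

namespace Pool.Agent.Results.MP_54474a_lc.JumpThinOrbit

open Pool.Agent.P.MP_54474a_lc

/-- For every `k > 0`, the countable classes with exactly `k` limit points, all of whose
subclasses that are effectively closed relative to the halting problem are relatively clopen,
exist and form exactly one orbit. -/
theorem result (k : ℕ) (hk : 0 < k) : ∃ P : EPi, ∀ Q : EPi, Automorphic P Q ↔
    (Q.1.Countable ∧ (derivedSet Q.1).encard = k ∧
      ∀ F, F ⊆ Q.1 → IsPi01Jump F → ∃ C, IsClopen C ∧ F = Q.1 ∩ C) :=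
  OR.orbit k hk

end Pool.Agent.Results.MP_54474a_lc.JumpThinOrbit
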