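import Pool.Agent.P.MP_54474a_lc.Width

namespace Pool.Agent.Results.MP_54474a_lc.WidthHierarchy

open Pool.Agent.P.MP_54474a_lc

/-- For every `K` in `1, 2, ..., ∞` there is a countable class whose only limit point is the zero
path and which has at most `K` paths branching off the limit path at each level, but which is not
automorphic to any class with one limit point and a smaller bound. -/
theorem result (K : ℕ∞) (hK : 1 ≤ K) : ∃ P : EPi, P.1.Countable ∧
    derivedSet P.1 = {fun _ => false} ∧ WidthLE P.1 (fun _ => false) K ∧
    ∀ (Q : EPi) (A : ℕ → Bool) (k : ℕ∞), derivedSet Q.1 = {A} → WidthLE Q.1 A k → k < K →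
      ¬ Automorphic P Q :=
  hierarchy K hK

end Pool.Agent.Results.MP_54474a_lc.WidthHierarchy
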